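import Pool.Agent.H655R3.PerFin

/-!
# Periodic half spaces do not minimise Gaussian surface area in dimension three

There is a periodic set `Ω ⊆ ℝ³` with `C^∞` boundary whose Gaussian surface area is strictly
smaller than that of every periodic half space of `ℝ³`. The set is
`Ω = {x : sin (π (x₀ + x₁ + x₂ + η sin (2 π x₀))) ≥ 0}` with a small negative `η`: the periodic
half space is not a critical point of the Gaussian surface area, since the normal derivative of
the periodised Gaussian density does not vanish on it.
-/

set_option autoImplicit false

open scoped ENNReal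

namespace Pool.Agent.Results.MP_b76267_pr.HalfSpaceBeaten

open Pool.Agent.H655R3.Per

/-- There is a closed periodic set `Ω ⊆ ℝ³` with `C^∞` boundary such that, for every choice of
signs `ε`, the periodic half space with signs `ε` (which is a periodic set of finite Gaussian
surface area) has strictly larger Gaussian surface area than `Ω`. -/
theorem result : ∃ Ω : Set (E 3), IsClosed Ω ∧ IsPeriodic Ω ∧
    IsSmoothHypersurface (frontier Ω) ∧
    ∀ ε : Fin 3 → ℝ, (∀ i, ε i = 1 ∨ ε i = -1) →
      IsPeriodic (halfSpace ε) ∧ gaussianSurfaceArea (halfSpace ε) < ∞ ∧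
      gaussianSurfaceArea Ω < gaussianSurfaceArea (halfSpace ε) := by
  obtain ⟨η, hη, hlt⟩ := exists_eta
  refine ⟨Om η, ?_, Om_periodic η, Om_smooth η, fun ε hε =>
    ⟨halfSpace_periodic ε hε, halfSpace_area_lt_top ε hε, ?_⟩⟩
  · have := uu_cont η
    exact isClosed_le continuous_const (by fun_prop)
  · exact (Om_area η hη).trans_lt (hlt.trans_le (halfSpace_area ε hε))

end Pool.Agent.Results.MP_b76267_pr.HalfSpaceBeaten
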